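import Pool.Agent.K4H40.ST.Defs
import Pool.Agent.W352.ChAbs.Cnt

/-!
# Frobenius elements, towers, primes of higher degree
-/

set_option autoImplicit false
set_option linter.all false

namespace Pool.Agent.K4H40.ST.Frob

open NumberField IsDedekindDomain Filter Topology MeasureTheory

section frob

variable {F Ω : Type} [Field F] [NumberField F] [Field Ω] [Algebra F Ω]

theorem coe_smul (σ : Gal(Ω/F)) (x : 𝓞 Ω) : ((σ • x : 𝓞 Ω) : Ω) = σ (x : Ω) := rfl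

variable [IsAlgClosure F Ω]

theorem isGal : IsGalois F Ω := by
  haveI : Normal F Ω := IsAlgClosure.normal F Ω
  haveI : Algebra.IsSeparable F Ω := inferInstance
  exact ⟨⟩

theorem inst_comm : SMulCommClass (Gal(Ω/F)) (𝓞 F) (𝓞 Ω) where
  smul_comm σ a x := by
    apply RingOfIntegers.ext
    rw [coe_smul]
    simp only [Algebra.smul_def, map_mul]
    exact congrArg₂ (· * ·) (σ.commutes (a : F)) rfl

theorem inst_inv : Algebra.IsInvariant (𝓞 F) (𝓞 Ω) (Gal(Ω/F)) where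
  isInvariant x hx := by
    haveI := isGal (F := F) (Ω := Ω)
    have h : (x : Ω) ∈ Set.range (algebraMap F Ω) := by
      rw [InfiniteGalois.mem_range_algebraMap_iff_fixed]
      intro σ
      exact congrArg (fun y : 𝓞 Ω => (y : Ω)) (hx σ)
    obtain ⟨k, hk⟩ := h
    have hint : IsIntegral ℤ k := by
      have h1 : IsIntegral ℤ (x : Ω) := x.isIntegral_coe
      rw [← hk] at h1
      exact (isIntegral_algebraMap_iff (algebraMap F Ω).injective).mp h1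
    refine ⟨⟨k, hint⟩, ?_⟩
    apply RingOfIntegers.ext
    exact hk

theorem task_frob (w : HeightOneSpectrum (𝓞 F)) (Q : Ideal (𝓞 Ω)) [Q.IsMaximal]
    (hQ : Q.comap (algebraMap (𝓞 F) (𝓞 Ω)) = w.asIdeal) :
    ∃ σ : Gal(Ω/F), ∀ x : 𝓞 Ω, σ • x - x ^ Ideal.absNorm w.asIdeal ∈ Q := by
  haveI := isGal (F := F) (Ω := Ω)
  haveI := inst_comm (F := F) (Ω := Ω)
  haveI := inst_inv (F := F) (Ω := Ω)
  letI : TopologicalSpace (𝓞 Ω) := ⊥
  haveI : DiscreteTopology (𝓞 Ω) := ⟨rfl⟩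
  haveI : ContinuousSMul (Gal(Ω/F)) (𝓞 Ω) := by
    rw [continuousSMul_iff_stabilizer_isOpen]
    intro x
    have := stabilizer_isOpen_of_isIntegral (K := F) (L := Ω) (x : Ω)
    convert this using 1
    ext σ
    simp only [SetLike.mem_coe, MulAction.mem_stabilizer_iff]
    constructor
    · intro h
      exact congrArg (fun y : 𝓞 Ω => (y : Ω)) h
    · intro h
      exact RingOfIntegers.ext h
  haveI : Q.LiesOver w.asIdeal := ⟨hQ.symm⟩
  haveI := w.isPrime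
  haveI : w.asIdeal.IsMaximal := w.isMaximal
  letI := Ideal.Quotient.field w.asIdeal
  letI := Ideal.Quotient.field Q
  have := Algebra.IsInvariant.isIntegral_of_profinite (A := 𝓞 F) (B := 𝓞 Ω)
    (G := Gal(Ω/F))
  haveI : Finite (𝓞 F ⧸ w.asIdeal) := Ideal.finiteQuotientOfFreeOfNeBot _ w.ne_bot
  cases nonempty_fintype (𝓞 F ⧸ w.asIdeal)
  obtain ⟨p, hc⟩ := CharP.exists (𝓞 F ⧸ w.asIdeal)
  obtain ⟨k, hp, hk⟩ := FiniteField.card (𝓞 F ⧸ w.asIdeal) p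
  haveI := Fact.mk hp
  haveI : Algebra.IsAlgebraic (𝓞 F ⧸ w.asIdeal) (𝓞 Ω ⧸ Q) := inferInstance
  haveI : PerfectField (𝓞 Ω ⧸ Q) :=
    Algebra.IsAlgebraic.perfectField (𝓞 F ⧸ w.asIdeal)
  have := CharP.of_ringHom_of_ne_zero (algebraMap (𝓞 F ⧸ w.asIdeal) (𝓞 Ω ⧸ Q)) p
    hp.ne_zero
  have : ExpChar (𝓞 Ω ⧸ Q) p := .prime hp
  let l : (𝓞 Ω ⧸ Q) ≃ₐ[𝓞 F ⧸ w.asIdeal] 𝓞 Ω ⧸ Q :=
    { __ := iterateFrobeniusEquiv (𝓞 Ω ⧸ Q) p k,
      commutes' r := by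
        dsimp [iterateFrobenius_def]
        rw [← map_pow, ← hk, FiniteField.pow_card] }
  obtain ⟨σ, hσ⟩ := Ideal.Quotient.stabilizerHom_surjective_of_profinite (G := Gal(Ω/F)) w.asIdeal Q l
  have hN : Ideal.absNorm w.asIdeal = p ^ (k : ℕ) := by
    rw [Ideal.absNorm_apply, Submodule.cardQuot_apply, ← hk]
    exact Nat.card_eq_fintype_card
  refine ⟨σ, fun x ↦ ?_⟩
  rw [← Ideal.Quotient.eq, hN]
  exact DFunLike.congr_fun hσ (Ideal.Quotient.mk Q x)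

end frob

/-- the number of the primes whose norm is not a prime number -/
theorem task_deg {E : Type} [Field E] [NumberField E] :
    Tendsto (fun N : ℕ => (Nat.card {w : HeightOneSpectrum (𝓞 E) // Ideal.absNorm w.asIdeal ≤ N ∧
      ¬ (Ideal.absNorm w.asIdeal).Prime} : ℝ) / (Nat.primeCounting N : ℝ)) atTop (𝓝 0) := by
  have h0 : Tendsto (fun N : ℕ => (Module.finrank ℚ E : ℝ) *
      ((Nat.sqrt N + 1 : ℝ) / (Nat.primeCounting N : ℝ))) atTop (𝓝 0) := by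
    simpa using Pool.Agent.W352.ChAbs.sqrt_div_pi.const_mul (Module.finrank ℚ E : ℝ)
  refine squeeze_zero (fun N => by positivity) (fun N => ?_) h0
  rw [← mul_div_assoc]
  apply div_le_div_of_nonneg_right _ (Nat.cast_nonneg _)
  obtain ⟨R, hR, hcard⟩ := Pool.Agent.W352.ChAbs.decomp (K := E)
    (fun w => ¬ (Ideal.absNorm w.asIdeal).Prime) N
  have hz : ∑ p ∈ Pool.Agent.W401.Cheb.pr N, Nat.card {v : HeightOneSpectrum (𝓞 E) // Ideal.absNorm v.asIdeal = p ∧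
      ¬ (Ideal.absNorm v.asIdeal).Prime} = 0 := by
    apply Finset.sum_eq_zero
    intro p hp
    have hp' : p.Prime := (Finset.mem_filter.mp hp).2
    rw [Nat.card_eq_zero]
    left
    constructor
    rintro ⟨v, hv1, hv2⟩
    rw [hv1] at hv2
    exact hv2 hp'
  rw [hz, zero_add] at hcard
  rw [hcard]
  exact_mod_cast hR

section tower

variable {K : Type} [Field K] [NumberField K]

theorem smul_mem_of_frob {F Ω : Type} [Field F] [Field Ω] [Algebra F Ω] (Q : Ideal (𝓞 Ω)) (N : ℕ) (hN : N ≠ 0)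
    (σ : Gal(Ω/F)) (hσ : ∀ x : 𝓞 Ω, σ • x - x ^ N ∈ Q) (y : 𝓞 Ω) (hy : y ∈ Q) : σ • y ∈ Q := by
  have h1 := hσ y
  have h2 : y ^ N ∈ Q := Ideal.pow_mem_of_mem Q hy N (Nat.pos_of_ne_zero hN)
  have h3 := Q.add_mem h1 h2
  rwa [sub_add_cancel] at h3

theorem inv_smul_mem_of_frob {F Ω : Type} [Field F] [Field Ω] [Algebra F Ω] (Q : Ideal (𝓞 Ω)) [hQ : Q.IsPrime] (N : ℕ)
    (σ : Gal(Ω/F)) (hσ : ∀ x : 𝓞 Ω, σ • x - x ^ N ∈ Q) (y : 𝓞 Ω) (hy : y ∈ Q) : σ⁻¹ • y ∈ Q := by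
  have h1 := hσ (σ⁻¹ • y)
  rw [smul_inv_smul] at h1
  have h2 : (σ⁻¹ • y) ^ N ∈ Q := by
    have h3 := Q.sub_mem hy h1
    rwa [sub_sub_cancel] at h3
  exact hQ.mem_of_pow_mem _ h2

theorem inv_pow_smul_mem_of_frob {F Ω : Type} [Field F] [Field Ω] [Algebra F Ω] (Q : Ideal (𝓞 Ω)) [hQ : Q.IsPrime] (N : ℕ)
    (σ : Gal(Ω/F)) (hσ : ∀ x : 𝓞 Ω, σ • x - x ^ N ∈ Q) (f : ℕ) : ∀ y : 𝓞 Ω, y ∈ Q → (σ ^ f)⁻¹ • y ∈ Q := by
  induction f with
  | zero =>
    intro y hy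
    simpa using hy
  | succ f ih =>
    intro y hy
    have h1 : (σ ^ (f + 1))⁻¹ • y = (σ ^ f)⁻¹ • (σ⁻¹ • y) := by
      rw [← mul_smul, ← mul_inv_rev, ← pow_succ']
    rw [h1]
    exact ih _ (inv_smul_mem_of_frob Q N σ hσ y hy)

theorem pow_frob {F Ω : Type} [Field F] [Field Ω] [Algebra F Ω] (Q : Ideal (𝓞 Ω)) (N : ℕ)
    (σ : Gal(Ω/F)) (hσ : ∀ x : 𝓞 Ω, σ • x - x ^ N ∈ Q) (f : ℕ) : ∀ x : 𝓞 Ω, σ ^ f • x - x ^ (N ^ f) ∈ Q := by
  induction f with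
  | zero =>
    intro x
    simp
  | succ f ih =>
    intro x
    have h1 := hσ (σ ^ f • x)
    have h2 := ih x
    rw [← Ideal.Quotient.eq] at h1 h2 ⊢
    rw [pow_succ' σ f, mul_smul, h1, map_pow, h2, map_pow, map_pow, ← pow_mul, ← pow_succ]

theorem algMap_tower (E : IntermediateField K (Kbar K)) :
    algebraMap (𝓞 K) (𝓞 (Kbar K)) = (algebraMap (𝓞 E) (𝓞 (Kbar K))).comp (algebraMap (𝓞 K) (𝓞 E)) := by
  ext x
  rfl

theorem closure_E (E : IntermediateField K (Kbar K)) : IsAlgClosure E (Kbar K) := by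
  haveI : Algebra.IsAlgebraic E (Kbar K) := Algebra.IsAlgebraic.tower_top (K := K) E
  exact ⟨inferInstance, inferInstance⟩

theorem task_tower (E : IntermediateField K (Kbar K))
    [NumberField E] (w : HeightOneSpectrum (𝓞 E)) :
    ∃ (v : HeightOneSpectrum (𝓞 K)) (f : ℕ) (σ : Gal(Kbar K/K)) (τ : Gal(Kbar K/E))
      (i : Gal(Kbar K/K)),
      w.asIdeal.comap (algebraMap (𝓞 K) (𝓞 E)) = v.asIdeal ∧ 1 ≤ f ∧
      Ideal.absNorm w.asIdeal = Ideal.absNorm v.asIdeal ^ f ∧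
      IsFrob K (Kbar K) v σ ∧ IsFrob E (Kbar K) w τ ∧ IsInert K (Kbar K) v i ∧
      res E τ = σ ^ f * i := by
  haveI := closure_E E
  haveI hwp := w.isPrime
  -- the prime below
  have hvne : w.asIdeal.comap (algebraMap (𝓞 K) (𝓞 E)) ≠ ⊥ := by
    intro h
    have h1 : ((Ideal.absNorm w.asIdeal : ℕ) : 𝓞 K) ∈ w.asIdeal.comap (algebraMap (𝓞 K) (𝓞 E)) := by
      rw [Ideal.mem_comap, map_natCast]
      exact Ideal.absNorm_mem w.asIdeal
    rw [h, Ideal.mem_bot] at h1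
    have h2 : Ideal.absNorm w.asIdeal = 0 := by exact_mod_cast h1
    exact w.ne_bot (Ideal.absNorm_eq_zero_iff.1 h2)
  obtain ⟨v, hv⟩ : ∃ v : HeightOneSpectrum (𝓞 K), w.asIdeal.comap (algebraMap (𝓞 K) (𝓞 E)) = v.asIdeal :=
    ⟨⟨w.asIdeal.comap (algebraMap (𝓞 K) (𝓞 E)), Ideal.comap_isPrime _ _, hvne⟩, rfl⟩
  -- a maximal ideal above
  haveI hint : Algebra.IsIntegral (𝓞 E) (𝓞 (Kbar K)) := ⟨fun x => (RingOfIntegers.isIntegral x).tower_top⟩
  have hker : RingHom.ker (algebraMap (𝓞 E) (𝓞 (Kbar K))) ≤ w.asIdeal := by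
    intro x hx
    rw [RingHom.mem_ker] at hx
    have h1 : algebraMap E (Kbar K) (x : E) = 0 := by
      have h2 := congrArg (fun y : 𝓞 (Kbar K) => (y : Kbar K)) hx
      exact h2
    have h3 : (x : E) = 0 := (algebraMap E (Kbar K)).injective (by rw [h1, map_zero])
    have h4 : x = 0 := RingOfIntegers.ext h3
    rw [h4]
    exact w.asIdeal.zero_mem
  haveI := w.isMaximal
  obtain ⟨Q, hQm, hQw⟩ := Ideal.exists_ideal_over_maximal_of_isIntegral (S := 𝓞 (Kbar K)) w.asIdeal hker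
  haveI := hQm
  have hQv : Q.comap (algebraMap (𝓞 K) (𝓞 (Kbar K))) = v.asIdeal := by
    rw [algMap_tower E, ← Ideal.comap_comap, hQw, hv]
  obtain ⟨σ, hσ⟩ := task_frob v Q hQv
  obtain ⟨τ, hτ⟩ := task_frob (F := E) w Q hQw
  -- the degree of the residue field
  obtain ⟨f, hf⟩ : ∃ f : ℕ, Ideal.absNorm w.asIdeal = Ideal.absNorm v.asIdeal ^ f := by
    haveI : w.asIdeal.LiesOver v.asIdeal := ⟨hv.symm⟩
    haveI := v.isMaximal
    letI := Ideal.Quotient.field v.asIdeal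
    haveI : Finite (𝓞 K ⧸ v.asIdeal) := Ideal.finiteQuotientOfFreeOfNeBot _ v.ne_bot
    haveI : Finite (𝓞 E ⧸ w.asIdeal) := Ideal.finiteQuotientOfFreeOfNeBot _ w.ne_bot
    refine ⟨Module.finrank (𝓞 K ⧸ v.asIdeal) (𝓞 E ⧸ w.asIdeal), ?_⟩
    rw [Ideal.absNorm_apply, Ideal.absNorm_apply, Submodule.cardQuot_apply, Submodule.cardQuot_apply]
    exact Module.natCard_eq_pow_finrank
  have hN1 : Ideal.absNorm w.asIdeal ≠ 1 := by
    rw [Ne, Ideal.absNorm_eq_one_iff]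
    exact hwp.ne_top
  have hf1 : 1 ≤ f := by
    rcases Nat.eq_zero_or_pos f with h | h
    · rw [h, pow_zero] at hf
      exact absurd hf hN1
    · exact h
  refine ⟨v, f, σ, τ, (σ ^ f)⁻¹ * res E τ, hv, hf1, hf, ⟨Q, hQm, hQv, hσ⟩, ⟨Q, hQm, hQw, hτ⟩,
    ⟨Q, hQm, hQv, fun x => ?_⟩, (mul_inv_cancel_left _ _).symm⟩
  have h1 := pow_frob Q _ σ hσ f x
  have h2 : res E τ • x - x ^ (Ideal.absNorm v.asIdeal ^ f) ∈ Q := by
    have h3 := hτ x
    rw [hf] at h3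
    exact h3
  have h3 : res E τ • x - σ ^ f • x ∈ Q := by
    have h4 := Q.sub_mem h2 h1
    rwa [sub_sub_sub_cancel_right] at h4
  have h4 := inv_pow_smul_mem_of_frob Q _ σ hσ f _ h3
  rw [smul_sub, inv_smul_smul, ← mul_smul] at h4
  exact h4

end tower

end Pool.Agent.K4H40.ST.Frob
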