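import Mathlib

/-!
# The Sato-Tate conjecture of a Galois representation

`F` is a number field, `Ω` is an algebraic closure of `F`, and `Gal(Ω/F)` the absolute Galois group.
-/

set_option autoImplicit false

namespace Pool.Agent.K4H40.ST

open NumberField IsDedekindDomain Filter Topology MeasureTheory

section field

/-- `σ` is a Frobenius element at the prime `v` of `F`: there is a maximal ideal `Q` above `v` of the
ring of all algebraic integers in `Ω` with `σ x ≡ x ^ N(v)` modulo `Q` for all `x`. -/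
def IsFrob (F Ω : Type) [Field F] [NumberField F] [Field Ω] [Algebra F Ω]
    (v : HeightOneSpectrum (𝓞 F)) (σ : Gal(Ω/F)) : Prop :=
  ∃ Q : Ideal (𝓞 Ω), Q.IsMaximal ∧ Q.comap (algebraMap (𝓞 F) (𝓞 Ω)) = v.asIdeal ∧
    ∀ x : 𝓞 Ω, σ • x - x ^ Ideal.absNorm v.asIdeal ∈ Q

/-- `σ` is in an inertia group at the prime `v` of `F`: there is a maximal ideal `Q` above `v` of the
ring of all algebraic integers in `Ω` with `σ x ≡ x` modulo `Q` for all `x`. -/
def IsInert (F Ω : Type) [Field F] [NumberField F] [Field Ω] [Algebra F Ω]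
    (v : HeightOneSpectrum (𝓞 F)) (σ : Gal(Ω/F)) : Prop :=
  ∃ Q : Ideal (𝓞 Ω), Q.IsMaximal ∧ Q.comap (algebraMap (𝓞 F) (𝓞 Ω)) = v.asIdeal ∧
    ∀ x : 𝓞 Ω, σ • x - x ∈ Q

/-- the average of `φ` over the primes of `F` of norm at most `N` -/
noncomputable def avg (F : Type) [Field F] [NumberField F] (φ : HeightOneSpectrum (𝓞 F) → ℂ)
    (N : ℕ) : ℂ :=
  (∑ᶠ w : {w : HeightOneSpectrum (𝓞 F) // Ideal.absNorm w.asIdeal ≤ N}, φ w.1) /
    (Nat.card {w : HeightOneSpectrum (𝓞 F) // Ideal.absNorm w.asIdeal ≤ N} : ℂ)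

end field

section group

variable {m : Type} [Fintype m] [DecidableEq m]

/-- the Zariski closure in `GL_m(ℂ)` of a set `S` of matrices -/
def zar (S : Set (GL m ℂ)) : Set (GL m ℂ) :=
  {h | ∀ P : MvPolynomial (m × m) ℂ,
    (∀ s ∈ S, MvPolynomial.eval (fun p => (s : Matrix m m ℂ) p.1 p.2) P = 0) →
      MvPolynomial.eval (fun p => (h : Matrix m m ℂ) p.1 p.2) P = 0}

/-- the image in `GL_m(ℂ)` of the representation `ρ` over `R` under `ι : R → ℂ` -/
def extend {Γ R : Type} [Group Γ] [CommRing R] (ρ : Γ →* GL m R) (ι : R →+* ℂ) : Γ →* GL m ℂ :=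
  (Matrix.GeneralLinearGroup.map ι).comp ρ

end group

section satotate

variable {g : ℕ}

/-- the group `G¹`: symplectic matrices in the Zariski closure of the image of `r` -/
def G1 {Γ : Type} [Group Γ] (r : Γ →* GL (Fin g ⊕ Fin g) ℂ) : Set (GL (Fin g ⊕ Fin g) ℂ) :=
  {h | h ∈ zar (Set.range r) ∧
    (h : Matrix (Fin g ⊕ Fin g) (Fin g ⊕ Fin g) ℂ) ∈ Matrix.symplecticGroup (Fin g) ℂ}

/-- `C` is a Sato-Tate group of `r`: a compact subgroup of `G¹` which is Zariski dense in `G¹`. -/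
structure IsSatoTateGroup {Γ : Type} [Group Γ] (r : Γ →* GL (Fin g ⊕ Fin g) ℂ)
    (C : Subgroup (GL (Fin g ⊕ Fin g) ℂ)) : Prop where
  compact : IsCompact (C : Set (GL (Fin g ⊕ Fin g) ℂ))
  sub : (C : Set (GL (Fin g ⊕ Fin g) ℂ)) ⊆ G1 r
  dense : G1 r ⊆ zar (C : Set (GL (Fin g ⊕ Fin g) ℂ))

/-- `x v` is in the class of the prime `v` for all but finitely many `v`: it is conjugate in `G¹` to
`N(v)^(-1/2)` times the image of a Frobenius element at `v`. -/
def IsClassSystem (F Ω : Type) [Field F] [NumberField F] [Field Ω] [Algebra F Ω]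
    (r : Gal(Ω/F) →* GL (Fin g ⊕ Fin g) ℂ) (C : Subgroup (GL (Fin g ⊕ Fin g) ℂ))
    (x : HeightOneSpectrum (𝓞 F) → C) : Prop :=
  {v : HeightOneSpectrum (𝓞 F) | ¬ ∃ σ : Gal(Ω/F), IsFrob F Ω v σ ∧ ∃ h ∈ G1 r,
    ((h * (x v : GL (Fin g ⊕ Fin g) ℂ) * h⁻¹ : GL (Fin g ⊕ Fin g) ℂ) :
      Matrix (Fin g ⊕ Fin g) (Fin g ⊕ Fin g) ℂ) =
        (((Real.sqrt (Ideal.absNorm v.asIdeal))⁻¹ : ℝ) : ℂ) •
          (r σ : Matrix (Fin g ⊕ Fin g) (Fin g ⊕ Fin g) ℂ)}.Finite

/-- the Sato-Tate conjecture for the representation `r` -/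
def SatoTate (F Ω : Type) [Field F] [NumberField F] [Field Ω] [Algebra F Ω]
    (r : Gal(Ω/F) →* GL (Fin g ⊕ Fin g) ℂ) : Prop :=
  ∀ C : Subgroup (GL (Fin g ⊕ Fin g) ℂ), IsSatoTateGroup r C →
  ∀ x : HeightOneSpectrum (𝓞 F) → C, IsClassSystem F Ω r C x →
  ∀ [MeasurableSpace C] [BorelSpace C] (μ : Measure C) [IsProbabilityMeasure μ]
    [μ.IsMulLeftInvariant],
  ∀ f : C → ℂ, Continuous f → (∀ c h, f (h * c * h⁻¹) = f c) →
    Tendsto (avg F fun v => f (x v)) atTop (𝓝 (∫ c, f c ∂μ))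

end satotate

section extensions

/-- the Sato-Tate conjecture for the restriction of `ρ` to `Gal(Ω/E)` -/
def SatoTateOver {F Ω R : Type} [Field F] [Field Ω] [Algebra F Ω] [CommRing R] {g : ℕ}
    (ρ : Gal(Ω/F) →* GL (Fin g ⊕ Fin g) R) (ι : R →+* ℂ) (E : IntermediateField F Ω)
    [NumberField E] : Prop :=
  SatoTate E Ω (extend (ρ.comp (AlgEquiv.restrictScalarsHom F)) ι)

/-- the values of `ρ` are symplectic similitudes -/
def IsSymplectic {Γ R : Type} [Group Γ] [CommRing R] {g : ℕ} (ρ : Γ →* GL (Fin g ⊕ Fin g) R) :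
    Prop :=
  ∀ σ, ∃ c : R, (ρ σ).val * Matrix.J (Fin g) R * (ρ σ).val.transpose = c • Matrix.J (Fin g) R

variable (F Ω : Type) [Field F] [NumberField F] [Field Ω] [Algebra F Ω]

/-- `ρ` is unramified outside of a finite set of primes. -/
def IsUnramified {G : Type} [Group G] (ρ : Gal(Ω/F) →* G) : Prop :=
  {v : HeightOneSpectrum (𝓞 F) | ∃ σ, IsInert F Ω v σ ∧ ρ σ ≠ 1}.Finite

/-- `τ` is in the decomposition group of a prime of `Ω` above a prime in `S`. -/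
def IsDecomp (S : Set (HeightOneSpectrum (𝓞 F))) (τ : Gal(Ω/F)) : Prop :=
  ∃ Q : Ideal (𝓞 Ω), Q.IsMaximal ∧ (∃ v ∈ S, Q.comap (algebraMap (𝓞 F) (𝓞 Ω)) = v.asIdeal) ∧
    ∀ x ∈ Q, τ • x ∈ Q

/-- `τ` is a complex conjugation. -/
def IsConj (τ : Gal(Ω/F)) : Prop := ∃ φ : Ω →+* ℂ, ∀ x, φ (τ x) = (starRingEnd ℂ) (φ x)

/-- The extension `E` of `F` is locally trivial for the Galois extension `M` of `F`, the set `S` of
primes of `F` and the number `N₀`: `EM/E` is cyclic, the primes of `E` above `S` split completely in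
`EM`, `EM/E` is unramified at all finite and infinite places, and `EM ⊆ E(ζ_p)` for a prime number
`p > N₀`. The group of the `τ ∈ Gal(Ω/F)` which are trivial on `E` is `Gal(Ω/E)`, and its decomposition
and inertia groups are its intersections with those of `Gal(Ω/F)`. -/
structure LocallyTrivial (M : IntermediateField F Ω) (S : Set (HeightOneSpectrum (𝓞 F))) (N₀ : ℕ)
    (E : IntermediateField F Ω) : Prop where
  cyclic : ∃ τ₀ ∈ E.fixingSubgroup, ∀ τ ∈ E.fixingSubgroup, ∃ k : ℕ,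
    (τ₀ ^ k)⁻¹ * τ ∈ M.fixingSubgroup
  split : ∀ τ ∈ E.fixingSubgroup, IsDecomp F Ω S τ → τ ∈ M.fixingSubgroup
  unramified : ∀ τ ∈ E.fixingSubgroup, ∀ v, IsInert F Ω v τ → τ ∈ M.fixingSubgroup
  real : ∀ τ ∈ E.fixingSubgroup, IsConj F Ω τ → τ ∈ M.fixingSubgroup
  cyclotomic : ∃ (p : ℕ) (ζ : Ω), p.Prime ∧ N₀ < p ∧ IsPrimitiveRoot ζ p ∧
    M ≤ E ⊔ IntermediateField.adjoin F {ζ}

end extensions

end Pool.Agent.K4H40.ST
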