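import Pool.Agent.W401.Cheb.AbsDefs
import Pool.Agent.K4H40.ST.Statement

/-!
# More definitions for the Sato-Tate conjecture of a Galois representation
-/

set_option autoImplicit false

namespace Pool.Agent.K4H40.ST

open NumberField IsDedekindDomain Filter Topology MeasureTheory

section good

variable {K : Type} [Field K] [NumberField K]

/-- the algebraic closure -/
abbrev Kbar (K : Type) [Field K] : Type := AlgebraicClosure K

/-- restriction to `Gal(K̄/E)` of the Galois group of `K` -/
noncomputable def res (E : IntermediateField K (Kbar K)) : Gal(Kbar K/E) →* Gal(Kbar K/K) :=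
  AlgEquiv.restrictScalarsHom K

/-- `τ` is in the decomposition group of a prime of `K̄` above a prime in `S`. -/
def InDecomposition (S : Set (HeightOneSpectrum (𝓞 K))) (τ : Gal(Kbar K/K)) : Prop :=
  ∃ Q : Ideal (𝓞 (Kbar K)), Q.IsMaximal ∧
    (∃ v ∈ S, Q.comap (algebraMap (𝓞 K) (𝓞 (Kbar K))) = v.asIdeal) ∧ ∀ x ∈ Q, τ • x ∈ Q

/-- `τ` is in an inertia group. -/
def InInertia (τ : Gal(Kbar K/K)) : Prop := ∃ v : HeightOneSpectrum (𝓞 K), IsInert K (Kbar K) v τ

/-- `τ` is a complex conjugation. -/
def IsComplexConjugation (τ : Gal(Kbar K/K)) : Prop :=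
  ∃ φ : Kbar K →+* ℂ, ∀ x, φ (τ x) = (starRingEnd ℂ) (φ x)

/-- The finite extension `E` of `K` is good for the Galois extension `M` of `K` and the set `S` of
primes: `EM/E` is cyclic, unramified at all places, finite or infinite, and all primes of `E` above `S`
split completely in `EM`. -/
structure IsGood (M : IntermediateField K (Kbar K)) (S : Set (HeightOneSpectrum (𝓞 K)))
    (E : IntermediateField K (Kbar K)) : Prop where
  cyclic : ∃ τ₀ : Gal(Kbar K/E), ∀ τ : Gal(Kbar K/E), ∃ k : ℕ, ∀ x ∈ M, τ x = (τ₀ ^ k) x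
  split : ∀ τ : Gal(Kbar K/E), InDecomposition S (res E τ) → ∀ x ∈ M, τ x = x
  unramified : ∀ τ : Gal(Kbar K/E), InInertia (res E τ) → ∀ x ∈ M, τ x = x
  real : ∀ τ : Gal(Kbar K/E), IsComplexConjugation (res E τ) → ∀ x ∈ M, τ x = x

end good

end Pool.Agent.K4H40.ST
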